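import Mathlib
import Pool.Agent.W295.TransMono

set_option autoImplicit false

/-!
# MP_ff81d5_co, Q2: the asymptotic transversal ratios are weakly increasing in the dimension

The definitions of `tauP`, `tauS` and of all notions they use are in `Pool.Agent.H523R3.TransDefs`.
-/

namespace Pool.Agent.Results.MP_ff81d5_co.Monotone

open Pool.Agent.H523R3.Trans Pool.Agent.W295.Trans

/-- The sequences `τ^P_d` (simplicial `d`-polytopes) and `τ^S_d` (simplicial `(d-1)`-spheres),
`d ≥ 2`, of asymptotic maximal transversal ratios are weakly increasing. -/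
theorem result : ∀ d : ℕ, 2 ≤ d → tauP d ≤ tauP (d + 1) ∧ tauS d ≤ tauS (d + 1) := by
  intro d hd
  rcases Nat.lt_or_ge d 4 with h | h
  · interval_cases d
    · exact ⟨tauP_two_le.trans half_le_tauP_three, tauS_two_le.trans half_le_tauS_three⟩
    · exact ⟨(tauP_le_one (by norm_num)).trans (tauP_eq_one (by norm_num)).ge,
        tauS_le_one.trans (tauS_eq_one (by norm_num)).ge⟩
  · exact ⟨(tauP_eq_one h).trans_le (tauP_eq_one (by omega)).ge,
      (tauS_eq_one h).trans_le (tauS_eq_one (by omega)).ge⟩

end Pool.Agent.Results.MP_ff81d5_co.Monotone
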